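import Pool.Agent.Helper45.AM.GoalsD
import Pool.Agent.Helper15.RA.GoalsH
import Pool.Agent.Helper15.AM.GoalsG

/-!
# Project AM (MP_cc6379_al): packet AM-D4. The chosen triples and the leading terms of their `T_x c_g T_y`.
-/

set_option autoImplicit false

open LaurentPolynomial Pool.Agent.Helper15.RA Pool.Agent.Helper45.AM

noncomputable section

namespace Pool.Agent.Helper8.AM

variable {S W H : Type} [Group W] [Ring H] [Algebra ℤ[T;T⁻¹] H]

theorem xr_one (X : AC S W H) (P : Set S) : XR X.cs P 1 := by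
  intro i _
  simp

theorem xl_one (X : AC S W H) (P : Set S) : XL X.cs P 1 := by
  intro i _
  simp

theorem adm_of_tp {X : AC S W H} {b : Bool} {x g y : W} (h : X.Tp b x g y) : X.Adm x g y :=
  Or.inl ⟨b, h.1, h.2.1, h.2.2.2⟩

theorem nn_tp {X : AC S W H} {b : Bool} {x g y : W} (h : X.Tp b x g y) :
    X.nn x g y = X.sl x + 1 + X.sl y := by
  simp only [AC.nn, h.2.2.1, if_false]

theorem nn_k {X : AC S W H} {x g y : W} (h : g ∈ par X.cs X.K) :
    X.nn x g y = X.sl x + X.sl y := by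
  simp only [AC.nn, h, if_true, add_zero]

theorem sl_one (b3 : B_3) (X : AC S W H) : X.sl 1 = 0 := ((b3 S W H X).1 1).2 (one_mem _)

/-- The `T`-coordinates of `B x g y` in the top layer, for a type `b` triple. -/
theorem top_tp (b1 : B_1) (c2 : C_2) (d1 : D_1) {X : AC S W H} {b : Bool} {x g y : W}
    (h : X.Tp b x g y) :
    ∃ q : W →₀ ℤ[T;T⁻¹], (∀ u ∈ q.support, X.cs.length u < X.cs.length (x * g * y) ∧ DegLE (-1) (q u)) ∧
      ∀ u, X.sl u = X.sl x + 1 + X.sl y →
        X.D.t.repr (X.B x g y) u = X.D.t.repr (X.D.t (x * g * y)) u + q u := by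
  obtain ⟨q, π, hq, hπ, hB⟩ := c2 S W H X b x g y h
  refine ⟨q, fun u hu => ⟨(hq u hu).2.1, (hq u hu).2.2⟩, fun u hu => ?_⟩
  have h1 : X.D.t.repr (q.sum fun u p => p • X.D.t u) = q := by
    have h2 : (q.sum fun u p => p • X.D.t u) = Finsupp.linearCombination ℤ[T;T⁻¹] X.D.t q :=
      (Finsupp.linearCombination_apply ℤ[T;T⁻¹] q).symm
    rw [h2, Module.Basis.repr_linearCombination]
  have h3 : X.D.t.repr (π.sum fun k p => p • X.B x k y) u = 0 := by
    rw [Finsupp.sum, map_sum, Finsupp.finsetSum_apply]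
    refine Finset.sum_eq_zero fun k hk => ?_
    rw [map_smul, Finsupp.smul_apply]
    have h4 : X.D.t.repr (X.B x k y) u = 0 := by
      by_contra h5
      have hk1 := (hπ k hk).1
      have hadm : X.Adm x k y :=
        Or.inr ⟨((b1 S W H X).2.2.1 b x).1 h.1, hk1, ((b1 S W H X).2.2.1 b y).2 h.2.2.2⟩
      have h6 := (d1 S W H X).2.2.2.2 x k y hadm u h5
      rw [nn_k hk1] at h6
      omega
    rw [h4, smul_zero]
  rw [hB, map_add, map_add, Finsupp.add_apply, Finsupp.add_apply, h1, h3, add_zero]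

/-- A type `b` triple contradicts `x' ≠ 1` and the choice condition. -/
theorem not_lt_sl (gpc : Pool.Agent.Helper15.AM.G_PC) (b3 : B_3) (b9 : B_9) {X : AC S W H} {M : ℕ} {b b' : Bool}
    {x g y x' g' y' : W} (h : X.Tp b x g y) (h' : X.Tp b' x' g' y') (hM : M < X.α g)
    (hw : x * g * y = x' * g' * y')
    (hc : x' = 1 ∨ ∀ κ β, κ ∈ par X.cs X.K → XL X.cs X.K β → g' = κ * β → ¬ X.Ge (M + 1) (x' * κ)) :
    ¬ X.sl x < X.sl x' := by
  intro hlt
  rcases hc with h1 | h1
  · rw [h1, sl_one b3 X] at hlt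
    omega
  · obtain ⟨κ, hκ, β, hβ, hg⟩ := (gpc S W X.M X.cs X.K).2.2.2.1 g'
    exact h1 κ β hκ hβ hg
      ((b9 S W H X b b' x g y x' g' y' h h' hw).2 hlt κ β hκ hβ hg (M + 1) hM)

theorem h_d_4 (h1 : H_1) (h2 : H_2) (gpc : Pool.Agent.Helper15.AM.G_PC) (b1 : B_1) (b2 : B_2)
    (b3 : B_3) (b9 : B_9) (c2 : C_2) (d1 : D_1) : D_4 := by
  intro S W H _ _ _ X M
  refine ⟨?_, ?_⟩
  · rintro x g y ⟨hM, hc⟩
    rcases hc with ⟨rfl, rfl, hg⟩ | ⟨b, hb, -⟩
    · have hadm : X.Adm 1 g 1 := Or.inr ⟨xr_one X X.K, hg, xl_one X X.K⟩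
      have hnn : X.nn 1 g 1 = 0 := by
        rw [nn_k hg, sl_one b3 X]
      have hB : X.B 1 g 1 = X.D.c g := by
        have ht : X.D.t 1 = 1 := (h1 S W H X.M X.cs X.L X.D.toHecke0).1
        simp only [AC.B, ht, one_mul, mul_one]
      have hK := (h2 S W H X.M X.cs X.L X.wt X.D)
      refine ⟨hadm, ⟨1, g, 1, true, (b1 S W H X).1 true hg, rfl, by simp, hM⟩, ?_, ?_, ?_, ?_⟩
      · rw [hnn, one_mul, mul_one]
        exact ((b3 S W H X).1 g).2 hg
      · rw [hB, one_mul, mul_one]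
        exact hK.2.2.2.1 g
      · intro u hu _
        rw [hB]
        rw [one_mul, mul_one] at hu
        exact hK.2.2.2.2.2.1 g u hu
      · exact (d1 S W H X).2.2.2.2 1 g 1 hadm
    · have hadm := adm_of_tp hb
      have hsl := (b3 S W H X).2.1 b x g y hb
      obtain ⟨q, hq, hq2⟩ := top_tp b1 c2 d1 hb
      refine ⟨hadm, ⟨x, g, y, b, hb.2.1, rfl, (b2 S W H X).1 b x g y hb, hM⟩, ?_, ?_, ?_, ?_⟩
      · rw [hsl, nn_tp hb]
      · rw [hq2 _ hsl, Module.Basis.repr_self, Finsupp.single_eq_same]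
        have h3 : q (x * g * y) = 0 := by
          by_contra h4
          exact absurd (hq _ (Finsupp.mem_support_iff.2 h4)).1 (lt_irrefl _)
        rw [h3, add_zero]
      · intro u hu hu2
        rw [nn_tp hb] at hu2
        rw [hq2 u hu2, Module.Basis.repr_self, Finsupp.single_eq_of_ne hu, zero_add]
        by_cases h3 : q u = 0
        · rw [h3]
          exact DegLE.zero _
        · exact (hq u (Finsupp.mem_support_iff.2 h3)).2
      · exact (d1 S W H X).2.2.2.2 x g y hadm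
  · rintro x g y x' g' y' ⟨hM, hc⟩ ⟨hM', hc'⟩ hw
    rcases hc with ⟨rfl, rfl, hg⟩ | ⟨b, hb, hc⟩
    · rcases hc' with ⟨rfl, rfl, hg'⟩ | ⟨b', hb', -⟩
      · refine ⟨rfl, ?_, rfl⟩
        simpa using hw
      · exfalso
        have h3 := (b3 S W H X).2.1 b' x' g' y' hb'
        have h4 := ((b3 S W H X).1 g).2 hg
        rw [one_mul, mul_one] at hw
        rw [← hw, h4] at h3
        omega
    · rcases hc' with ⟨rfl, rfl, hg'⟩ | ⟨b', hb', hc'⟩
      · exfalso
        have h3 := (b3 S W H X).2.1 b x g y hb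
        have h4 := ((b3 S W H X).1 g').2 hg'
        rw [one_mul, mul_one] at hw
        rw [hw, h4] at h3
        omega
      · have h3 := not_lt_sl gpc b3 b9 hb hb' hM hw hc'
        have h4 := not_lt_sl gpc b3 b9 hb' hb hM' hw.symm hc
        obtain ⟨h5, h6, h7, -⟩ := (b9 S W H X b b' x g y x' g' y' hb hb' hw).1 (by omega)
        exact ⟨h5, h6, h7⟩

end Pool.Agent.Helper8.AM
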